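import Pool.Agent.Lib_helper87.AX.H8d
import Pool.Agent.Lib_helper54.FAM.SW
import Pool.Agent.Lib_helper54.FAM.LX8

/-!
# Points of order eight, `d = 3/4`: the clause `Line`
-/

set_option autoImplicit false
set_option linter.unusedSectionVars false
set_option linter.unusedVariables false
set_option maxRecDepth 100000

open scoped TensorProduct WithZero

namespace Pool.Agent.FK4

open Pool.Agent.MK4 WeierstrassCurve.Affine Pool.Agent.KC72 Pool.Agent.MC

variable {k : Type*} [Field k] [DecidableEq k] [CharZero k] {W : WeierstrassCurve.Affine k}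
  {F : Type*} [Field F] [Algebra k F] {X Y : F}

lemma sub8d : ∀ p ∈ MCX8d.kept, p ∈ K8d.clsA := by decide +kernel

lemma res8d : FK4R.chkRes FK4R.locs8d FK4R.tab23 MCX8d.kept AXH.xi8d = true := by
  decide +kernel

/-- **points of order eight, `d = 3/4`**, when the regulator is known for `L₂` -/
theorem line8d_of2' (hg : Generic W X Y) {P : W.Point} (h8 : To8t (3 / 4 : k) P X Y)
    {L2 : List Tm} (hL2 : okT 9 MCX8d.kept L2 = true)
    (hD2 : chkD 9 MCX8d.kept L2 = true)
    (hnz : ∀ (φ : k →+* ℝ) (x y : F), TN.Gen (-1/8 : k) (-1/6) x y →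
      IntermediateField.adjoin k {x, y} = ⊤ → ∀ (β : ℚ) (ξ : HK F),
      KC72.zt (List.ofFn (K8d.G8 x y)) MCX8d.kept L2 - β • ξ ∈ Cst k F → RegNe φ ξ) :
    Line P X Y :=
  line8d_of2 hg h8 MCX8d.x8d_ok MCX8d.n_eq MCX8d.r_eq
    (clsK := MCX8d.kept) MCX8d.same sub8d
    (fun x y h => AXH.hred8d h)
    AXH.okT8d AXH.chkD8d (fun x y h => AXH.hmul8d h)
    (fun x y h => unram8dx h res8d) hL2 hD2 hnz

end Pool.Agent.FK4
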