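import Pool.Agent.Lib_helper60.EXC.R8c
import Pool.Agent.Lib_helper7.R8d.Ln
import Pool.Agent.Lib_helper60.FAM.EightF

/-!
# Points of order eight: all parameters
-/

set_option autoImplicit false
set_option linter.unusedSectionVars false

open scoped TensorProduct WithZero

namespace Pool.Agent.FK4

open Pool.Agent.MK4 WeierstrassCurve.Affine

variable {k : Type*} [Field k] [DecidableEq k] [CharZero k] {W : WeierstrassCurve.Affine k}
  {F : Type*} [Field F] [Algebra k F] {X Y : F}

/-- **points of order eight** -/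
theorem eight_all (hg : Generic W X Y) (P : W.Point) (h : addOrderOf P = 8) :
    ∃ (d : k) (x y : F), d ≠ 0 ∧
      Tate P X Y ((2 * d - 1) * (d - 1)) ((2 * d - 1) * (d - 1) / d) x y ∧
      (Indep3 d (d - 1) (2 * d - 1) →
        UnitEq8 (AddSubgroup.zmultiples P) X Y ((2 * d - 1) * (d - 1))
          ((2 * d - 1) * (d - 1) / d) x y ∧ ClosedIn (AddSubgroup.zmultiples P) X Y ⊥) ∧
      (d = 2 ∨ d = -1 ∨ 3 * d = 1 ∨ 3 * d = 2 ∨ 2 * d = 3 ∨ 2 * d = -1 ∨ 4 * d = 1 ∨ 4 * d = 3 →
        Line P X Y) :=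
  eight_of' hg P h (line8c hg) (line8d hg)

end Pool.Agent.FK4
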