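import Pool.Agent.Lib_helper87.AX.H6a
import Pool.Agent.Lib_helper54.FAM.SW
import Pool.Agent.Lib_helper54.FAM.LX6
import Pool.Agent.Lib_helper54.FAM.Q6c

/-!
# Points of order six, `t = 1/3`: the clause `Line`
-/

set_option autoImplicit false
set_option linter.unusedSectionVars false
set_option linter.unusedVariables false
set_option maxRecDepth 100000

open scoped TensorProduct WithZero

namespace Pool.Agent.FK4

open Pool.Agent.MK4 WeierstrassCurve.Affine Pool.Agent.KC72 Pool.Agent.MC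
open Pool.Agent.N6 (G6 M)
open Pool.Agent.N6S (glS clsS0 kdS0 solsS0 unit_eqS0)

variable {k : Type*} [Field k] [DecidableEq k] [CharZero k] {W : WeierstrassCurve.Affine k}
  {F : Type*} [Field F] [Algebra k F] {X Y : F}

lemma res6a : FK4R.chkRes FK4R.locs6c FK4R.tab23 MCX6a.kept AXH.xi6a = true := by decide +kernel

/-- **points of order six, `t = 1/3`** -/
theorem line6a {t : k} (ht : 3 * t = 1) (hg : Generic W X Y) {P : W.Point} (h6 : To6t t P X Y) :
    Line P X Y :=
  line6S_of2 (kdS0 ht) hg h6 MCX6a.x6a_ok MCX6a.n_eq MCX6a.r_eq (clsF := clsS0)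
    (clsK := MCX6a.kept) MCX6a.same (fun p hp => hp) (fun x y h => solsS0 (kdS0 ht) h)
    (fun x y h => unit_eqS0 (kdS0 ht) h)
    (fun x y h p hp => Submodule.mem_sup_right (Submodule.subset_span ⟨p, hp, rfl⟩))
    AXH.okT6a AXH.chkD6a (fun x y h => AXH.hmul6a (kdS0 ht) h)
    (fun x y h => unram6cx ht h res6a) (L2 := K4N.R6c.L6cs) K4N.R6c.ok K4N.R6c.closed
    (fun φ x y h htop β ξ hβ => K4N.R6c.rn6c_of ht φ h htop β ξ hβ)

end Pool.Agent.FK4
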