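import Pool.Agent.Lib_helper87.AX.H6b
import Pool.Agent.Lib_helper54.FAM.SW
import Pool.Agent.Lib_helper54.FAM.LX6
import Pool.Agent.Lib_helper40.PB.Q6d

/-!
# Points of order six, `t = -1/3`: the clause `Line`
-/

set_option autoImplicit false
set_option linter.unusedSectionVars false
set_option linter.unusedVariables false
set_option maxRecDepth 100000

open scoped TensorProduct WithZero

namespace Pool.Agent.FK4

open Pool.Agent.MK4 WeierstrassCurve.Affine Pool.Agent.KC72 Pool.Agent.MC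
open Pool.Agent.N6 (G6 M)
open Pool.Agent.N6S (glS clsS1 kdS1 solsS1 unit_eqS1)

variable {k : Type*} [Field k] [DecidableEq k] [CharZero k] {W : WeierstrassCurve.Affine k}
  {F : Type*} [Field F] [Algebra k F] {X Y : F}

lemma res6b : FK4R.chkRes FK4R.locs6d FK4R.tab23 MCX6b.kept AXH.xi6b = true := by decide +kernel

/-- **points of order six, `t = -1/3`** -/
theorem line6b {t : k} (ht : 3 * t = -1) (hg : Generic W X Y) {P : W.Point} (h6 : To6t t P X Y) :
    Line P X Y :=
  line6S_of2 (kdS1 ht) hg h6 MCX6b.x6b_ok MCX6b.n_eq MCX6b.r_eq (clsF := clsS1)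
    (clsK := MCX6b.kept) MCX6b.same (fun p hp => List.mem_of_mem_take hp)
    (fun x y h => solsS1 (kdS1 ht) h) (fun x y h => unit_eqS1 (kdS1 ht) h)
    (fun x y h => AXH.hred6b (kdS1 ht) h)
    AXH.okT6b AXH.chkD6b (fun x y h => AXH.hmul6b (kdS1 ht) h)
    (fun x y h => unram6dx ht h res6b) (L2 := K4N.R6d.L6ds) K4N.R6d.ok K4N.R6d.closed
    (fun φ x y h htop β ξ hβ => K4N.R6d.rn6d_of ht φ h htop β ξ hβ)

end Pool.Agent.FK4
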