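import Pool.Agent.Lib_helper87.AX.H6c
import Pool.Agent.Lib_helper60.FAM.Ln6S
import Pool.Agent.Lib_helper54.FAM.LX6
import Pool.Agent.Lib_helper40.PB.Fin

/-!
# Points of order six, `t = -1/5`: the clause `Line`
-/

set_option autoImplicit false
set_option linter.unusedSectionVars false
set_option linter.unusedVariables false
set_option maxRecDepth 100000

open scoped TensorProduct WithZero

namespace Pool.Agent.FK4

open Pool.Agent.MK4 WeierstrassCurve.Affine Pool.Agent.KC72 Pool.Agent.MC
open Pool.Agent.N6 (G6 M)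
open Pool.Agent.N6S (glS clsS2 kdS2 solsS2 unit_eqS2)

variable {k : Type*} [Field k] [DecidableEq k] [CharZero k] {W : WeierstrassCurve.Affine k}
  {F : Type*} [Field F] [Algebra k F] {X Y : F}

lemma res6c : FK4R.chkRes3 FK4R.locs6e FK4R.tab235 MCX6c.kept AXH.xi6c = true := by decide +kernel

lemma Lx6c : PB6.Lx = AXH.xi6c := rfl

/-- **points of order six, `t = -1/5`** -/
theorem line6c {t : k} (ht : 5 * t = -1) (hg : Generic W X Y) {P : W.Point} (h6 : To6t t P X Y) :
    Line P X Y :=
  line6S_of (kdS2 ht) hg h6 MCX6c.x6c_ok MCX6c.n_eq MCX6c.r_eq (clsF := clsS2)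
    (clsK := MCX6c.kept) MCX6c.same (fun p hp => List.mem_of_mem_take hp)
    (fun x y h => solsS2 (kdS2 ht) h) (fun x y h => unit_eqS2 (kdS2 ht) h)
    (fun x y h => AXH.hred6c (kdS2 ht) h)
    AXH.okT6c AXH.chkD6c (fun x y h => AXH.hmul6c (kdS2 ht) h)
    (fun x y h => unram6ex ht h res6c)
    (fun φ x y h htop => by rw [← Lx6c]; exact PB6.regNe ht φ h htop)

end Pool.Agent.FK4
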