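import Pool.Agent.Lib_helper87.AX.H8c
import Pool.Agent.Lib_helper54.FAM.SW
import Pool.Agent.Lib_helper54.FAM.LX8

/-!
# Points of order eight, `d = 3/2`: the clause `Line`
-/

set_option autoImplicit false
set_option linter.unusedSectionVars false
set_option linter.unusedVariables false
set_option maxRecDepth 100000

open scoped TensorProduct WithZero

namespace Pool.Agent.FK4

open Pool.Agent.MK4 WeierstrassCurve.Affine Pool.Agent.KC72 Pool.Agent.MC

variable {k : Type*} [Field k] [DecidableEq k] [CharZero k] {W : WeierstrassCurve.Affine k}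
  {F : Type*} [Field F] [Algebra k F] {X Y : F}

lemma res8c : FK4R.chkRes FK4R.locs8c FK4R.tab23 MCX8c.kept AXH.xi8c = true := by
  decide +kernel

/-- **points of order eight, `d = 3/2`**, when the regulator is known for `L₂` -/
theorem line8c_of2' (hg : Generic W X Y) {P : W.Point} (h8 : To8t (3 / 2 : k) P X Y)
    {L2 : List Tm} (hL2 : okT 9 MCX8c.kept L2 = true)
    (hD2 : chkD 9 MCX8c.kept L2 = true)
    (hnz : ∀ (φ : k →+* ℝ) (x y : F), TN.Gen (1 : k) (2/3) x y →
      IntermediateField.adjoin k {x, y} = ⊤ → ∀ (β : ℚ) (ξ : HK F),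
      KC72.zt (List.ofFn (K8c.G8 x y)) MCX8c.kept L2 - β • ξ ∈ Cst k F → RegNe φ ξ) :
    Line P X Y :=
  line8c_of2 hg h8 MCX8c.x8c_ok MCX8c.n_eq MCX8c.r_eq
    (clsK := MCX8c.kept) MCX8c.same (fun p hp => hp)
    (fun x y h p hp => Submodule.mem_sup_right (Submodule.subset_span ⟨p, hp, rfl⟩))
    AXH.okT8c AXH.chkD8c (fun x y h => AXH.hmul8c h)
    (fun x y h => unram8cx h res8c) hL2 hD2 hnz

end Pool.Agent.FK4
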