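import Pool.Agent.Lib_helper60.EXC.L8c
import Pool.Agent.Lib_helper2.K4N.Q8c

/-!
# Points of order eight, `d = 3/2`: the clause `Line`
-/

set_option autoImplicit false
set_option linter.unusedSectionVars false
set_option linter.unusedVariables false

open scoped TensorProduct WithZero

namespace Pool.Agent.FK4

open Pool.Agent.MK4 WeierstrassCurve.Affine

variable {k : Type*} [Field k] [DecidableEq k] [CharZero k] {W : WeierstrassCurve.Affine k}
  {F : Type*} [Field F] [Algebra k F] {X Y : F}

/-- **points of order eight, `d = 3/2`** -/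
theorem line8c (hg : Generic W X Y) {P : W.Point} (h8 : To8t (3 / 2 : k) P X Y) : Line P X Y :=
  line8c_of2' hg h8 K4N.R8c.ok K4N.R8c.closed
    (fun φ x y h htop β ξ hβ => K4N.R8c.rn8c_of φ h htop β ξ hβ)

end Pool.Agent.FK4
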