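import Pool.Agent.Lib_helper60.EXC.L6a
import Pool.Agent.Lib_helper60.EXC.L6b
import Pool.Agent.Lib_helper60.EXC.L6c
import Pool.Agent.Lib_helper60.FAM.SixF

/-!
# Points of order six: all parameters
-/

set_option autoImplicit false
set_option linter.unusedSectionVars false

open scoped TensorProduct WithZero

namespace Pool.Agent.FK4

open Pool.Agent.MK4 WeierstrassCurve.Affine

variable {k : Type*} [Field k] [DecidableEq k] [CharZero k] {W : WeierstrassCurve.Affine k}
  {F : Type*} [Field F] [Algebra k F] {X Y : F}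

/-- **points of order six** -/
theorem six_all (hg : Generic W X Y) (P : W.Point) (h : addOrderOf P = 6) :
    ∃ (c : k) (x y : F), Tate P X Y (c + c ^ 2) c x y ∧
      (Indep c (c + 1) → 3 * c ≠ 1 → 3 * c ≠ -1 → 5 * c ≠ -1 →
        UnitEqS (AddSubgroup.zmultiples P) X Y ∧ ClosedIn (AddSubgroup.zmultiples P) X Y ⊥) ∧
      (c = 1 ∨ c = -2 ∨ 2 * c = -1 ∨ 3 * c = 1 ∨ 3 * c = -1 ∨ 5 * c = -1 → Line P X Y) :=
  six_of' hg P h (fun h6 => line6a (by norm_num) hg h6) (fun h6 => line6b (by norm_num) hg h6)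
    (fun h6 => line6c (by norm_num) hg h6)

end Pool.Agent.FK4
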